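import Pool.Agent.Lib.lead.CXSat
import Pool.Agent.Lib.lead.CXGraph

/-! Building graphs with named vertices; NP-hardness of basic graph problems. -/

namespace Pool.Agent.Lib.CX

variable {α β V : Type}

/-- the graph input with vertices `vs` (repetitions removed) and pairs `es` -/
def mkGr [DecidableEq V] (vs : List V) (es : List (V × V)) : Gr :=
  (vs.dedup.map fun _ => (), es.map fun e => (vs.dedup.idxOf e.1, vs.dedup.idxOf e.2))

@[fun_prop] theorem PT.mkGr [Enc α] [Enc V] [DecidableEq V] {vs : α → List V} {es : α → List (V × V)} (h1 : PT vs)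
    (h2 : PT es) : PT (fun a => mkGr (vs a) (es a)) := by unfold CX.mkGr; fun_prop

theorem mkGr_n [DecidableEq V] (vs : List V) (es : List (V × V)) : (mkGr vs es).n = vs.dedup.length := by
  simp [mkGr, Gr.n]

/-- the numbering of the vertices -/
def mkGrEquiv [DecidableEq V] (vs : List V) (es : List (V × V)) : Fin (mkGr vs es).n ≃ {x | x ∈ vs} where
  toFun i := ⟨vs.dedup[i.1]'(mkGr_n vs es ▸ i.2), List.mem_dedup.1 (List.getElem_mem _)⟩
  invFun x := ⟨vs.dedup.idxOf x.1, mkGr_n vs es ▸ List.idxOf_lt_length_of_mem (List.mem_dedup.2 x.2)⟩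
  left_inv i := Fin.ext ((List.nodup_dedup vs).idxOf_getElem _ _)
  right_inv x := Subtype.ext (List.getElem_idxOf _)

theorem mkGr_arc [DecidableEq V] (vs : List V) (es : List (V × V)) (u v : Fin (mkGr vs es).n) :
    (mkGr vs es).arc u v ↔ ((mkGrEquiv vs es u).1, (mkGrEquiv vs es v).1) ∈ es := by
  have key : ∀ (x : V) (i : Fin (mkGr vs es).n), vs.dedup.idxOf x = i.1 ↔ x = (mkGrEquiv vs es i).1 := fun x i => by
    constructor
    · intro h
      have hx : x ∈ vs := List.mem_dedup.1 (List.idxOf_lt_length_iff.1 (h ▸ mkGr_n vs es ▸ i.2))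
      have : (mkGrEquiv vs es).symm ⟨x, hx⟩ = i := Fin.ext h
      rw [← this, Equiv.apply_symm_apply]
    · rintro rfl
      exact congrArg Fin.val ((mkGrEquiv vs es).left_inv i)
  simp only [Gr.arc]
  change (u.1, v.1) ∈ es.map _ ↔ _
  simp only [List.mem_map, Prod.mk.injEq, key]
  constructor
  · rintro ⟨⟨a, b⟩, h, rfl, rfl⟩; exact h
  · exact fun h => ⟨_, h, rfl, rfl⟩

/-- the graph of `mkGr vs es` is the graph of the pairs `es` on the vertex set `vs` -/
def mkGrIso [DecidableEq V] (vs : List V) (es : List (V × V)) :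
    (mkGr vs es).G ≃g (SimpleGraph.fromRel fun u v : V => (u, v) ∈ es).induce {x | x ∈ vs} where
  toEquiv := mkGrEquiv vs es
  map_rel_iff' := fun {u v} => by
    have h1 := mkGr_arc vs es u v
    have h2 := mkGr_arc vs es v u
    simp only [Gr.arc] at h1 h2
    simp [Gr.G, h1, h2, Subtype.val_inj]

theorem Gr.adj_iff (a : Gr) (u v : Fin a.n) : a.G.Adj u v ↔ u.1 ≠ v.1 ∧ ((u.1, v.1) ∈ a.2 ∨ (v.1, u.1) ∈ a.2) := by
  simp [Gr.G, Fin.ext_iff]

/-- adjacency test on vertex numbers -/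
def Gr.adjB (a : Gr) (u v : ℕ) : Bool := decide (u < a.n ∧ v < a.n ∧ u ≠ v ∧ ((u, v) ∈ a.2 ∨ (v, u) ∈ a.2))

@[fun_prop] theorem PT.adjB [Enc α] {a : α → Gr} {u v : α → ℕ} (ha : PT a) (hu : PT u) (hv : PT v) :
    PT (fun x => (a x).adjB (u x) (v x)) := by unfold Gr.adjB; fun_prop

theorem Gr.adjB_iff (a : Gr) (u v : Fin a.n) : a.adjB u v = true ↔ a.G.Adj u v := by simp [Gr.adjB, Gr.adj_iff]

/-- colourings of a graph with named vertices -/
theorem mkGr_colorable [DecidableEq V] (vs : List V) (es : List (V × V)) (k : ℕ) [NeZero k] :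
    (mkGr vs es).G.Colorable k ↔
      ∃ c : V → Fin k, ∀ e ∈ es, e.1 ∈ vs → e.2 ∈ vs → e.1 ≠ e.2 → c e.1 ≠ c e.2 := by
  constructor
  · rintro ⟨c⟩
    refine ⟨fun x => if h : x ∈ vs then c ((mkGrIso vs es).symm ⟨x, h⟩) else 0, fun e he h1 h2 h3 => ?_⟩
    simp only [h1, h2, dif_pos]
    exact c.valid ((mkGrIso vs es).symm.map_rel_iff.2 (by simp [h3, he]))
  · rintro ⟨c, hc⟩
    refine ⟨SimpleGraph.Coloring.mk (fun i => c (mkGrIso vs es i).1) fun {u v} h => ?_⟩
    have := (mkGrIso vs es).map_rel_iff.2 h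
    simp only [SimpleGraph.comap_adj, Function.Embedding.subtype_apply, SimpleGraph.fromRel_adj] at this
    rcases this with ⟨h1, h2 | h2⟩
    · exact hc _ h2 (mkGrIso vs es u).2 (mkGrIso vs es v).2 h1
    · exact (hc _ h2 (mkGrIso vs es v).2 (mkGrIso vs es u).2 h1.symm).symm

def colV (φ : List (T3 ℕ)) : List (ℕ × T3 ℕ) :=
  (0, 0, 0, 0) :: φ.flatMap fun C => [(1, C), (2, C), (3, C), (4, C.1, 0, 0), (4, C.2.1, 0, 0), (4, C.2.2, 0, 0)]
def colE (φ : List (T3 ℕ)) : List ((ℕ × T3 ℕ) × (ℕ × T3 ℕ)) :=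
  φ.flatMap fun C => [((1, C), (2, C)), ((1, C), (3, C)), ((2, C), (3, C)), ((1, C), (4, C.1, 0, 0)),
    ((2, C), (4, C.2.1, 0, 0)), ((3, C), (4, C.2.2, 0, 0)), ((0, 0, 0, 0), (4, C.1, 0, 0)),
    ((0, 0, 0, 0), (4, C.2.1, 0, 0)), ((0, 0, 0, 0), (4, C.2.2, 0, 0))]

set_option synthInstance.maxSize 1000 in
theorem col3_hard : NPHard fun a : Gr => a.G.Colorable 3 := by
  refine NPHard.of_nae (fun φ => mkGr (colV φ) (colE φ)) (by unfold colV colE; fun_prop) fun φ _ => ?_
  rw [mkGr_colorable]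
  constructor
  · rintro ⟨v, hv⟩
    let f : Bool → Fin 3 := fun b => if b then 1 else 2
    refine ⟨fun y => [0, if v y.2.2.1 = v y.2.2.2 ∨ v y.2.1 = v y.2.2.2 then f (!v y.2.1) else 0,
      if v y.2.2.1 = v y.2.2.2 then 0 else f (!v y.2.2.1),
      if v y.2.2.1 ≠ v y.2.2.2 ∧ v y.2.1 = v y.2.2.2 then 0 else f (!v y.2.2.2), f (v y.2.1)].getD y.1 0, ?_⟩
    simp only [colE, List.forall_mem_flatMap]
    rintro ⟨x, y, z⟩ hC e he - - -
    have := hv _ hC
    revert e
    simp only [List.forall_mem_cons]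
    cases hx : v x <;> cases hy : v y <;> cases hz : v z <;> simp_all [nae, f]
  · rintro ⟨c, hc⟩
    refine ⟨fun x => decide (c (4, x, 0, 0) = c (0, 0, 0, 0) + 1), fun C hC => ?_⟩
    have : ∀ e ∈ colE [C], c e.1 ≠ c e.2 := fun e he => by
      have h1 : ∀ x ∈ colV [C], x ∈ colV φ := fun x hx => by
        simp only [colV, List.mem_cons, List.mem_flatMap] at hx ⊢
        rcases hx with h | ⟨D, hD, h⟩
        · exact .inl h
        · obtain rfl : D = C := by simpa using hD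
          exact .inr ⟨D, hC, h⟩
      have h2 : e.1 ∈ colV [C] ∧ e.2 ∈ colV [C] ∧ e.1 ≠ e.2 := by revert e; simp [colE, colV]
      exact hc e (by simp only [colE, List.mem_flatMap] at he ⊢; exact ⟨C, hC, by simpa using he⟩) (h1 _ h2.1)
        (h1 _ h2.2.1) h2.2.2
    simp only [colE, List.flatMap_singleton, List.forall_mem_cons] at this
    revert this
    beta_reduce
    generalize c (0, 0, 0, 0) = r, c (1, C) = a, c (2, C) = b, c (3, C) = d, c (4, C.1, 0, 0) = x,
      c (4, C.2.1, 0, 0) = y, c (4, C.2.2, 0, 0) = z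
    simp only [List.not_mem_nil, IsEmpty.forall_iff, implies_true, and_true]
    revert r a b d x y z; decide +kernel

/-- transfer of finite vertex sets between a graph input and its named vertices -/
theorem mkGr_exists_finset [DecidableEq V] (vs : List V) (es : List (V × V))
    (P : Finset (Fin (mkGr vs es).n) → Prop) :
    (∃ s, P s) ↔ ∃ t : Finset V, ∃ h : ∀ x ∈ t, x ∈ vs,
      P (t.attach.image fun x => (mkGrEquiv vs es).symm ⟨x.1, h x.1 x.2⟩) := by
  refine ⟨fun ⟨s, hs⟩ => ⟨s.image fun i => (mkGrEquiv vs es i).1, fun x hx => ?_, ?_⟩, fun ⟨_, _, h⟩ => ⟨_, h⟩⟩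
  · obtain ⟨i, -, rfl⟩ := Finset.mem_image.1 hx; exact (mkGrEquiv vs es i).2
  · convert hs
    ext i
    simp only [Finset.mem_image, Finset.mem_attach, true_and, Subtype.exists, Equiv.symm_apply_eq]
    constructor
    · rintro ⟨_, ⟨j, hj, rfl⟩, e⟩
      rwa [← (mkGrEquiv vs es).injective e]
    · exact fun h => ⟨_, ⟨i, h, rfl⟩, rfl⟩

theorem mkGr_indep [DecidableEq V] (vs : List V) (es : List (V × V)) (k : ℕ) :
    (∃ s : Finset (Fin (mkGr vs es).n), (mkGr vs es).G.IsIndepSet s ∧ k ≤ s.card) ↔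
      ∃ t : Finset V, (∀ x ∈ t, x ∈ vs) ∧ (∀ x ∈ t, ∀ y ∈ t, x ≠ y → (x, y) ∉ es) ∧ k ≤ t.card := by
  constructor
  · rintro ⟨s, h1, h2⟩
    refine ⟨s.image fun i => (mkGrIso vs es i).1, ?_, ?_, ?_⟩
    · simp only [Finset.forall_mem_image]; exact fun i _ => (mkGrIso vs es i).2
    · simp only [Finset.forall_mem_image]
      intro i hi j hj h3 h4
      exact h1 hi hj (fun e => h3 (by rw [e])) ((mkGrIso vs es).map_rel_iff.1 (by simp [h3, h4]))
    · rwa [Finset.card_image_of_injective _ fun a b h => (mkGrIso vs es).injective (Subtype.ext h)]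
  · rintro ⟨t, h1, h2, h3⟩
    refine ⟨Finset.univ.filter fun i => (mkGrIso vs es i).1 ∈ t, fun i hi j hj h4 h5 => ?_, h3.trans ?_⟩
    · have := (mkGrIso vs es).map_rel_iff.2 h5
      simp at hi hj this
      rcases this with ⟨a, b | b⟩
      · exact h2 _ hi _ hj (by simpa [Subtype.val_inj] using h4) b
      · exact h2 _ hj _ hi (by simpa [Subtype.val_inj] using h4.symm) b
    · refine Finset.card_le_card_of_surjOn (fun i => (mkGrIso vs es i).1) fun x hx => ?_
      exact ⟨(mkGrIso vs es).symm ⟨x, h1 x hx⟩, by simpa using hx, by simp⟩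

/-- independent set of size at least `k` -/
def IndepP (a : Gr × ℕ) : Prop := ∃ s : Finset (Fin a.1.n), a.1.G.IsIndepSet s ∧ a.2 ≤ s.card
/-- clique of size at least `k` -/
def CliqueP (a : Gr × ℕ) : Prop := ∃ s : Finset (Fin a.1.n), a.1.G.IsClique s ∧ a.2 ≤ s.card
/-- vertex cover of size at most `k` -/
def CoverP (a : Gr × ℕ) : Prop :=
  ∃ s : Finset (Fin a.1.n), (∀ u v, a.1.G.Adj u v → u ∈ s ∨ v ∈ s) ∧ s.card ≤ a.2

def litOf (y : Cl3 ℕ × ℕ) : ℕ × Bool := [y.1.1, y.1.2.1].getD y.2 y.1.2.2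
def isV (φ : List (Cl3 ℕ)) : List (Cl3 ℕ × ℕ) := φ ×ˢ List.range 3
def isE (φ : List (Cl3 ℕ)) : List ((Cl3 ℕ × ℕ) × (Cl3 ℕ × ℕ)) :=
  (isV φ ×ˢ isV φ).filter fun e => e.1.1 = e.2.1 ∨ ((litOf e.1).1 = (litOf e.2).1 ∧ (litOf e.1).2 ≠ (litOf e.2).2)

theorem ok_iff (v : ℕ → Bool) (C : Cl3 ℕ) : C.ok v ↔ ∃ k < 3, v (litOf (C, k)).1 = (litOf (C, k)).2 := by
  simp only [Cl3.ok, Nat.exists_lt_succ_right, litOf, or_assoc]; simp

theorem indep_hard : NPHard IndepP := by
  refine NPHard.of_sat3 (fun φ => (mkGr (isV φ) (isE φ), φ.dedup.length)) (by unfold isE isV litOf; fun_prop)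
    fun φ _ => ?_
  unfold IndepP
  rw [mkGr_indep, ← List.card_toFinset]
  simp only [Sat3, ok_iff]
  constructor
  · rintro ⟨v, hv⟩
    choose! k h1 h2 using hv
    refine ⟨φ.toFinset.image fun C => (C, k C), ?_, ?_, ?_⟩
    · simp only [Finset.forall_mem_image, List.mem_toFinset]
      exact fun C h => List.pair_mem_product.2 ⟨h, List.mem_range.2 (h1 C h)⟩
    · simp only [Finset.forall_mem_image, List.mem_toFinset, isE, List.mem_filter, decide_eq_true_eq]
      rintro C hC D hD h ⟨-, rfl | ⟨a, b⟩⟩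
      · exact h rfl
      · exact b (by rw [← h2 C hC, ← h2 D hD, a])
    · rw [Finset.card_image_of_injective _ fun a b h => (Prod.mk.inj h).1]
  · rintro ⟨t, h1, h2, h3⟩
    have h4 : ∀ x ∈ t, ∀ y ∈ t, x ≠ y → x.1 ≠ y.1 ∧ ((litOf x).1 = (litOf y).1 → (litOf x).2 = (litOf y).2) :=
      fun x hx y hy h => by
        have := h2 x hx y hy h
        rw [isE, List.mem_filter, decide_eq_true_eq] at this
        have := fun h => this ⟨List.pair_mem_product.2 ⟨h1 x hx, h1 y hy⟩, h⟩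
        tauto
    have h5 : t.image Prod.fst = φ.toFinset := Finset.eq_of_subset_of_card_le
      (by simp only [Finset.image_subset_iff, List.mem_toFinset]; exact fun x hx => (List.pair_mem_product.1 (h1 x hx)).1)
      (by rwa [Finset.card_image_of_injOn fun x hx y hy e => by_contra fun h => (h4 x hx y hy h).1 e])
    classical
    refine ⟨fun x => decide (∃ y ∈ t, litOf y = (x, true)), fun C hC => ?_⟩
    obtain ⟨⟨D, k⟩, hy, rfl⟩ := Finset.mem_image.1 (h5 ▸ List.mem_toFinset.2 hC)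
    refine ⟨k, by simpa using (List.pair_mem_product.1 (h1 _ hy)).2, ?_⟩
    rw [Bool.eq_iff_iff, decide_eq_true_eq]
    constructor
    · rintro ⟨z, hz, e⟩
      by_cases h : z = (D, k)
      · rw [← h, e]
      · rw [← (h4 z hz _ hy h).2 (by rw [e]), e]
    · exact fun h => ⟨_, hy, Prod.ext rfl h⟩

theorem cover_hard : NPHard CoverP := by
  refine indep_hard.red ⟨fun a => if a.2 ≤ a.1.n then (a.1, a.1.n - a.2) else (([(), ()], [(0, 1)]), 0),
    by fun_prop, fun ⟨a, k⟩ => ?_⟩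
  simp only
  split
  · rename_i h
    constructor
    · rintro ⟨s, h1, h2⟩
      refine ⟨sᶜ, fun u v h => ?_, by simp [Finset.card_compl] at *; omega⟩
      by_contra h3
      simp at h3
      exact h1 h3.1 h3.2 h.ne h
    · rintro ⟨s, h1, h2⟩
      refine ⟨sᶜ, fun u hu v hv _ h => ?_, by simp [Finset.card_compl] at *; omega⟩
      simp at hu hv
      exact (h1 u v h).elim hu hv
  · rename_i h
    refine iff_of_false (fun ⟨s, _, h2⟩ => h (h2.trans (by simpa using s.card_le_univ))) fun ⟨s, h1, h2⟩ => ?_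
    obtain rfl : s = ∅ := Finset.card_eq_zero.1 (Nat.le_zero.1 h2)
    simpa using h1 ⟨0, by decide⟩ ⟨1, by decide⟩ ((Gr.adj_iff _ _ _).2 (by decide))

/-- the complement of a graph input -/
abbrev Gr.co (a : Gr) : Gr := (a.1, (List.range a.n ×ˢ List.range a.n).filter fun e => !a.adjB e.1 e.2)

@[fun_prop] theorem PT.co [Enc α] {a : α → Gr} (ha : PT a) : PT (fun x => (a x).co) := by unfold Gr.co; fun_prop

theorem Gr.co_G (a : Gr) : a.co.G = a.Gᶜ := by
  ext u v
  have h1 := a.adjB_iff u v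
  have h2 := a.adjB_iff v u
  have h3 := u.2
  have h4 := v.2
  simp only [Gr.co, Gr.n] at h3 h4
  rw [Gr.adj_iff, SimpleGraph.compl_adj, Ne, Ne, Fin.ext_iff]
  simp [Gr.co, ← Bool.not_eq_true, h1, h2, h3, h4, a.G.adj_comm v u]

theorem clique_hard : NPHard CliqueP :=
  indep_hard.red ⟨fun a => (a.1.co, a.2), by fun_prop, fun ⟨a, k⟩ => by
    simp only [CliqueP, IndepP, Gr.co_G]
    exact exists_congr fun s => by rw [SimpleGraph.isClique_compl]⟩

end Pool.Agent.Lib.CX
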