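import Pool.Agent.Lib.lead.CXCook

/-! NP-hardness of monotone not-all-equal 3-SAT and positive one-in-three 3-SAT with distinct variables. -/

namespace Pool.Agent.Lib.CX

variable {α β V : Type}

abbrev T3 (V : Type) := V × V × V

def T3.vars (C : T3 V) : List V := [C.1, C.2.1, C.2.2]
def T3.map (f : V → β) (C : T3 V) : T3 β := (f C.1, f C.2.1, f C.2.2)
def T3.dist (C : T3 V) : Prop := C.1 ≠ C.2.1 ∧ C.1 ≠ C.2.2 ∧ C.2.1 ≠ C.2.2

/-- satisfiability of a list of triples of variables for a fixed ternary boolean relation -/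
def SatR (r : Bool → Bool → Bool → Bool) (φ : List (T3 V)) : Prop :=
  ∃ v : V → Bool, ∀ C ∈ φ, r (v C.1) (v C.2.1) (v C.2.2) = true

/-- not all equal -/
def nae (a b c : Bool) : Bool := !(a == b && b == c)
/-- exactly one is true -/
def one3 (a b c : Bool) : Bool := a.toNat + b.toNat + c.toNat == 1

theorem exists_factor {l : List V} {f : V → β} (h : ∀ x ∈ l, ∀ y ∈ l, f x = f y → x = y) (v : V → α) (d : α) :
    ∃ u : β → α, ∀ x ∈ l, u (f x) = v x := by
  classical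
  exact ⟨fun b => if h : ∃ x ∈ l, f x = b then v h.choose else d, fun x hx => by
    have e : ∃ y ∈ l, f y = f x := ⟨x, hx, rfl⟩
    simp only [dif_pos e]; rw [h _ e.choose_spec.1 x hx e.choose_spec.2]⟩

def renumT [DecidableEq V] (φ : List (T3 V)) : List (T3 ℕ) := φ.map (T3.map fun x => (φ.flatMap T3.vars).idxOf x)

theorem PT.renumT [DecidableEq V] [Enc V] : PT (renumT (V := V)) := by
  unfold CX.renumT T3.map T3.vars; fun_prop

theorem satR_renumT [DecidableEq V] (r) (φ : List (T3 V)) : SatR r (renumT φ) ↔ SatR r φ := by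
  constructor
  · rintro ⟨v, hv⟩
    exact ⟨fun x => v ((φ.flatMap T3.vars).idxOf x), fun C hC => hv _ (List.mem_map_of_mem hC)⟩
  · rintro ⟨v, hv⟩
    obtain ⟨u, hu⟩ := exists_factor (f := fun x => (φ.flatMap T3.vars).idxOf x)
      (fun _ hx _ _ e => (List.idxOf_inj hx).1 e) v false
    refine ⟨u, List.forall_mem_map.2 fun C hC => ?_⟩
    have := fun x hx => hu x (List.mem_flatMap.2 ⟨C, hC, hx⟩)
    simp only [T3.vars, List.forall_mem_cons] at this
    simpa [T3.map, this] using hv C hC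

theorem renumT_norm [DecidableEq V] (φ : List (T3 V)) (h : ∀ C ∈ φ, C.dist) :
    ∀ C ∈ renumT φ, C.dist ∧ ∀ x ∈ C.vars, x < 3 * (renumT φ).length := by
  have l : (φ.flatMap T3.vars).length = 3 * φ.length := by
    clear h
    induction φ with
    | nil => rfl
    | cons C φ ih => simp only [List.flatMap_cons, List.length_append, ih]; simp [T3.vars]; omega
  refine List.forall_mem_map.2 fun C hC => ?_
  have m := fun x hx => (List.mem_flatMap.2 ⟨C, hC, hx⟩ : x ∈ φ.flatMap T3.vars)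
  have := fun x hx => List.idxOf_lt_length_of_mem (m x hx)
  simp only [T3.vars, List.forall_mem_cons] at this m
  obtain ⟨a, b, c⟩ := h C hC
  refine ⟨⟨fun e => a ((List.idxOf_inj m.1).1 e), fun e => b ((List.idxOf_inj m.1).1 e),
    fun e => c ((List.idxOf_inj m.2.1).1 e)⟩, ?_⟩
  simpa [T3.vars, T3.map, renumT, ← l, this] using this

theorem NPHard.of_satR {r} [Enc V] [DecidableEq V] (g : List (Cl3 ℕ) → List (T3 V)) (hg : PT g)
    (h1 : ∀ φ, Sat3 φ ↔ SatR r (g φ)) (h2 : ∀ φ, ∀ C ∈ g φ, C.dist) [Enc β] {B : β → Prop} (f : List (T3 ℕ) → β)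
    (hf : PT f) (h : ∀ φ, (∀ C ∈ φ, C.dist ∧ ∀ x ∈ C.vars, x < 3 * φ.length) → (SatR r φ ↔ B (f φ))) : NPHard B :=
  NPHard.of_sat3 (fun φ => f (renumT (g φ))) (hf.comp (PT.renumT.comp hg)) fun φ _ =>
    (h1 φ).trans ((satR_renumT r _).symm.trans (h _ (renumT_norm _ (h2 φ))))

abbrev GV := ℕ × Cl3 ℕ
def gL (x : ℕ) (b : Bool) : GV := (b.toNat, unit x true)
def gC (k : ℕ) : GV := (k, unit 0 true)
def gNe (x y : GV) : List (T3 GV) := [(x, y, gC 8), (x, y, gC 9), (x, y, gC 10)]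

def naeOf (φ : List (Cl3 ℕ)) : List (T3 GV) :=
  (gC 8, gC 9, gC 10) :: φ.flatMap fun C =>
    gNe (gL C.1.1 true) (gL C.1.1 false) ++ gNe (gL C.2.1.1 true) (gL C.2.1.1 false) ++
    gNe (gL C.2.2.1 true) (gL C.2.2.1 false) ++ gNe (2, C) (gL C.1.1 !C.1.2) ++ gNe (3, C) (gL C.2.1.1 !C.2.1.2) ++
    gNe (4, C) (gL C.2.2.1 !C.2.2.2) ++ gNe (5, C) (6, C) ++ [((2, C), (3, C), (5, C)), ((6, C), (4, C), gC 7)]

theorem naeOf_iff (φ) : Sat3 φ ↔ SatR nae (naeOf φ) := by
  simp only [SatR, naeOf, List.forall_mem_cons, List.forall_mem_flatMap, List.forall_mem_append, gNe, List.not_mem_nil,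
    IsEmpty.forall_iff, implies_true, and_true]
  constructor
  · rintro ⟨v, hv⟩
    refine ⟨fun y => [!v y.2.1.1, v y.2.1.1, v y.2.1.1 == y.2.1.2, v y.2.2.1.1 == y.2.2.1.2, v y.2.2.2.1 == y.2.2.2.2,
      !(v y.2.1.1 == y.2.1.2 || v y.2.2.1.1 == y.2.2.1.2), v y.2.1.1 == y.2.1.2 || v y.2.2.1.1 == y.2.2.1.2,
      false, true].getD y.1 false, by simp [gC, nae], ?_⟩
    rintro ⟨⟨x, a⟩, ⟨y, b⟩, ⟨z, c⟩⟩ hC
    have := hv _ hC
    simp only [Cl3.ok] at this
    cases a <;> cases b <;> cases c <;> simp [gL, gC, unit] <;>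
      cases hx : v x <;> cases hy : v y <;> cases hz : v z <;> simp_all [nae]
  · rintro ⟨u, h0, hu⟩
    have ne : ∀ a b, (nae a b (u (gC 8)) = true ∧ nae a b (u (gC 9)) = true ∧ nae a b (u (gC 10)) = true) → a = !b := by
      revert h0; generalize u (gC 8) = p, u (gC 9) = q, u (gC 10) = r; revert p q r; decide
    refine ⟨fun x => xor (u (gL x true)) (u (gC 7)), ?_⟩
    rintro ⟨⟨x, a⟩, ⟨y, b⟩, ⟨z, c⟩⟩ hC
    obtain ⟨⟨⟨⟨⟨⟨⟨h1, h2⟩, h3⟩, h4⟩, h5⟩, h6⟩, h7⟩, h8, h9⟩ := hu _ hC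
    replace h1 := ne _ _ h1; replace h2 := ne _ _ h2; replace h3 := ne _ _ h3; replace h4 := ne _ _ h4
    replace h5 := ne _ _ h5; replace h6 := ne _ _ h6; replace h7 := ne _ _ h7
    simp only [Cl3.ok] at *
    rw [h4, h5, h7] at h8; rw [h6] at h9
    clear h4 h5 h6 h7 ne hu h0
    generalize u (6, _) = w at *
    generalize u (gC 7) = t at *
    cases a <;> cases b <;> cases c <;> simp only [Bool.not_true, Bool.not_false, h1, h2, h3] at * <;>
      generalize u (gL x false) = p at * <;> generalize u (gL y false) = q at * <;>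
      generalize u (gL z false) = r at * <;> revert p q r w t <;> decide

theorem naeOf_dist (φ) : ∀ C ∈ naeOf φ, C.dist := by
  simp only [naeOf, List.forall_mem_cons, List.forall_mem_flatMap, List.forall_mem_append, gNe, List.not_mem_nil,
    IsEmpty.forall_iff, implies_true, and_true]
  refine ⟨by simp [T3.dist, gC], ?_⟩
  rintro ⟨⟨x, a⟩, ⟨y, b⟩, ⟨z, c⟩⟩ -
  cases a <;> cases b <;> cases c <;> simp [T3.dist, gC, gL]

/-- NP-hardness by a reduction from monotone not-all-equal 3-SAT (2-colouring of 3-uniform hypergraphs) -/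
theorem NPHard.of_nae [Enc β] {B : β → Prop} (f : List (T3 ℕ) → β) (hf : PT f)
    (h : ∀ φ, (∀ C ∈ φ, C.dist ∧ ∀ x ∈ C.vars, x < 3 * φ.length) → (SatR nae φ ↔ B (f φ))) : NPHard B :=
  NPHard.of_satR naeOf (by unfold naeOf gNe gL gC unit; fun_prop) naeOf_iff naeOf_dist f hf h

def oneOf (φ : List (Cl3 ℕ)) : List (T3 GV) :=
  (gC 8, gC 9, gC 10) :: (gC 8, gC 9, gC 11) :: (gC 8, gC 10, gC 11) :: φ.flatMap fun C =>
    [(gL C.1.1 true, gL C.1.1 false, gC 9), (gL C.2.1.1 true, gL C.2.1.1 false, gC 9),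
      (gL C.2.2.1 true, gL C.2.2.1 false, gC 9), (gL C.1.1 !C.1.2, (2, C), (3, C)),
      ((3, C), gL C.2.1.1 C.2.1.2, (4, C)), ((4, C), (5, C), gL C.2.2.1 !C.2.2.2)]

theorem oneOf_iff (φ) : Sat3 φ ↔ SatR one3 (oneOf φ) := by
  simp only [SatR, oneOf, List.forall_mem_cons, List.forall_mem_flatMap, List.not_mem_nil,
    IsEmpty.forall_iff, implies_true, and_true]
  constructor
  · rintro ⟨v, hv⟩
    refine ⟨fun y => [!v y.2.1.1, v y.2.1.1, v y.2.1.1 == y.2.1.2 && v y.2.2.1.1 == y.2.2.1.2,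
      v y.2.1.1 == y.2.1.2 && v y.2.2.1.1 != y.2.2.1.2, v y.2.1.1 != y.2.1.2 && v y.2.2.1.1 != y.2.2.1.2,
      v y.2.2.2.1 == y.2.2.2.2 && (v y.2.1.1 == y.2.1.2 || v y.2.2.1.1 == y.2.2.1.2), false,
      false, true].getD y.1 false, by simp [gC, one3], by simp [gC, one3], by simp [gC, one3], ?_⟩
    rintro ⟨⟨x, a⟩, ⟨y, b⟩, ⟨z, c⟩⟩ hC
    have := hv _ hC
    simp only [Cl3.ok] at this
    cases a <;> cases b <;> cases c <;> simp [gL, gC, unit] <;>
      cases hx : v x <;> cases hy : v y <;> cases hz : v z <;> simp_all [one3]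
  · rintro ⟨u, h0, h0', h0'', hu⟩
    have f : u (gC 9) = false := by
      revert h0 h0' h0''; generalize u (gC 8) = p, u (gC 9) = q, u (gC 10) = r, u (gC 11) = s; revert p q r s; decide
    refine ⟨fun x => u (gL x true), ?_⟩
    rintro ⟨⟨x, a⟩, ⟨y, b⟩, ⟨z, c⟩⟩ hC
    obtain ⟨h1, h2, h3, h4, h5, h6⟩ := hu _ hC
    have ne : ∀ a b, one3 a b false = true → a = !b := by decide
    rw [f] at h1 h2 h3
    replace h1 := ne _ _ h1; replace h2 := ne _ _ h2; replace h3 := ne _ _ h3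
    simp only [Cl3.ok] at *
    clear ne hu h0 h0' h0''
    generalize u (2, _) = w2 at *
    generalize u (3, _) = w3 at *
    generalize u (4, _) = w4 at *
    generalize u (5, _) = w5 at *
    cases a <;> cases b <;> cases c <;> simp only [Bool.not_true, Bool.not_false, h1, h2, h3] at * <;>
      generalize u (gL x false) = p at * <;> generalize u (gL y false) = q at * <;>
      generalize u (gL z false) = r at * <;> revert p q r w2 w3 w4 w5 <;> decide

theorem oneOf_dist (φ) : ∀ C ∈ oneOf φ, C.dist := by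
  simp only [oneOf, List.forall_mem_cons, List.forall_mem_flatMap, List.not_mem_nil,
    IsEmpty.forall_iff, implies_true, and_true]
  refine ⟨by simp [T3.dist, gC], by simp [T3.dist, gC], by simp [T3.dist, gC], ?_⟩
  rintro ⟨⟨x, a⟩, ⟨y, b⟩, ⟨z, c⟩⟩ -
  cases a <;> cases b <;> cases c <;> simp [T3.dist, gC, gL]

/-- NP-hardness by a reduction from positive one-in-three 3-SAT -/
theorem NPHard.of_one3 [Enc β] {B : β → Prop} (f : List (T3 ℕ) → β) (hf : PT f)
    (h : ∀ φ, (∀ C ∈ φ, C.dist ∧ ∀ x ∈ C.vars, x < 3 * φ.length) → (SatR one3 φ ↔ B (f φ))) : NPHard B :=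
  NPHard.of_satR oneOf (by unfold oneOf gL gC unit; fun_prop) oneOf_iff oneOf_dist f hf h

end Pool.Agent.Lib.CX
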