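import Pool.Agent.Lib.lead.CXNat

/-! Reductions, typed certificates for NP. -/

namespace Pool.Agent.Lib.CX

open Function

variable {α β γ δ σ : Type} [Enc α] [Enc β] [Enc γ] [Enc δ] [Enc σ]

theorem Red.trans {A : α → Prop} {B : β → Prop} {C : γ → Prop} (h : Red A B) (h' : Red B C) : Red A C :=
  let ⟨f, hf, e⟩ := h; let ⟨g, hg, e'⟩ := h'; ⟨fun a => g (f a), hg.comp hf, fun a => (e a).trans (e' _)⟩
theorem NPHard.red {A : α → Prop} {B : β → Prop} (h : NPHard A) (h' : Red A B) : NPHard B :=
  fun L hL => (h L hL).trans h'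
theorem PSPACEHard.red {A : α → Prop} {B : β → Prop} (h : PSPACEHard A) (h' : Red A B) : PSPACEHard B :=
  fun L hL => (h L hL).trans h'
theorem InP.red {A : α → Prop} {B : β → Prop} (h : InP B) (h' : Red A B) : InP A :=
  let ⟨f, hf, e⟩ := h'; let ⟨g, hg, e'⟩ := h; ⟨fun a => g (f a), hg.comp hf, fun a => (e a).trans (e' _)⟩
theorem InP.of_decide {A : α → Prop} {i : ∀ a, Decidable (A a)} (h : PT fun a => @decide (A a) (i a)) : InP A :=
  ⟨_, h, fun a => by simp⟩
theorem InP.of_iff {A B : α → Prop} (h : InP B) (e : ∀ a, A a ↔ B a) : InP A := h.red ⟨_, PT.id, e⟩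

theorem PT.flatMap_const {ι : Type} (L : List ι) {F : ι → α → List β} (h : ∀ i ∈ L, PT (F i)) :
    PT (fun a => L.flatMap fun i => F i a) := by
  induction L with
  | nil => exact PT.const []
  | cons i L ih =>
    exact ((h i List.mem_cons_self).append (ih fun j hj => h j (List.mem_cons_of_mem _ hj))).congr fun a => by simp

/-- a type whose encodings can be decoded in polynomial time -/
class Dec (γ : Type) [Enc γ] where
  dec : Tr → γ
  pt : PT dec
  dec_tr : ∀ c, dec (Enc.tr c) = c

attribute [fun_prop] Dec.pt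

instance : Dec Tr := ⟨fun t => t, PT.id, fun _ => rfl⟩
instance : Dec Bool := ⟨Tr.val, PT.tval, fun _ => rfl⟩
instance : Dec Unit := ⟨fun _ => (), PT.const _, fun _ => rfl⟩
instance [Dec α] [Dec β] : Dec (α × β) :=
  ⟨fun t => (Dec.dec t.left, Dec.dec t.right), (Dec.pt.comp PT.left).pair (Dec.pt.comp PT.right),
    fun c => Prod.ext (Dec.dec_tr _) (Dec.dec_tr _)⟩

def Tr.toList : Tr → List Tr
  | .leaf _ => []
  | .node l r => l :: r.toList

theorem size_node (l r : Tr) : size (Tr.node l r) = size l + size r + 1 := size_pair l r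

theorem PT.toList' : PT Tr.toList := by
  let g : Tr × List Tr → Tr × List Tr := fun s => bif s.1.isNode then (s.1.right, s.2 ++ [s.1.left]) else s
  have e : ∀ k t acc, (g^[k] (t, acc)).2 = acc ++ t.toList.take k := fun k => by
    induction k with
    | zero => simp
    | succ k ih =>
      intro t acc
      cases t with
      | leaf b => exact (ih (.leaf b) acc).trans (by simp [Tr.toList])
      | node l r => exact (ih r (acc ++ [l])).trans (by simp [Tr.toList])
  have e2 : ∀ k s, CX.size (g^[k] s) ≤ CX.size s := fun k => by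
    induction k with
    | zero => simp
    | succ k ih =>
      rintro ⟨t, acc⟩
      refine (ih _).trans ?_
      cases t with
      | leaf b => simp [g, Tr.isNode]
      | node l r => have := size_append acc [l]; simp [g, Tr.isNode, Tr.left, Tr.right, size_node] at *; omega
  have e3 : ∀ t : Tr, t.toList.length ≤ CX.size t := fun t => by
    induction t with
    | leaf b => simp [Tr.toList]
    | node l r _ ih => simp [Tr.toList, size_node]; omega
  exact (PT.iterate (F := fun _ => g) (i := fun t : Tr => (t, [])) (n := fun t => CX.size t)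
    (B := fun t => CX.size (t, ([] : List Tr))) (by simp only [g]; fun_prop) (by fun_prop) (by fun_prop) (by fun_prop)
    (by fun_prop) fun a k _ => e2 _ _).snd.congr fun t => by rw [e, List.take_of_length_le (e3 t)]; rfl

instance [Dec α] : Dec (List α) :=
  ⟨fun t => t.toList.map Dec.dec, PT.map (F := fun _ => Dec.dec) (Dec.pt.comp PT.snd') PT.toList', fun c => by
    induction c with
    | nil => rfl
    | cons a l ih => exact congrArg₂ List.cons (Dec.dec_tr a) ih⟩
instance : Dec ℕ :=
  ⟨fun t => ofBits (Dec.dec t), PT.ofBits Dec.pt, fun c => by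
    change ofBits (Dec.dec (Enc.tr c.bits)) = c
    rw [Dec.dec_tr, ofBits_bits]⟩
instance [Dec α] : Dec (Option α) :=
  ⟨fun t => (Dec.dec t : List α).head?, PT.head? Dec.pt, fun c => by
    change (Dec.dec (Enc.tr c.toList) : List α).head? = c
    rw [Dec.dec_tr]; cases c <;> rfl⟩
instance : Dec ℤ :=
  ⟨fun t => bif (Dec.dec t : Bool × ℕ).1 then -((Dec.dec t : Bool × ℕ).2 : ℤ) else (Dec.dec t : Bool × ℕ).2,
    by have := Dec.pt (γ := Bool × ℕ); fun_prop, fun c => by
    change (bif (Dec.dec (Enc.tr (decide (c < 0), c.natAbs)) : Bool × ℕ).1 then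
      -((Dec.dec (Enc.tr (decide (c < 0), c.natAbs)) : Bool × ℕ).2 : ℤ)
      else (Dec.dec (Enc.tr (decide (c < 0), c.natAbs)) : Bool × ℕ).2) = c
    rw [Dec.dec_tr]
    by_cases h : c < 0 <;> simp [h, abs_of_neg, abs_of_nonneg, not_lt.1]⟩

def Tr.post : Tr → List Bool
  | .leaf b => [true, false, b]
  | .node l r => l.post ++ r.post ++ [true, true]

def parseStep (s : (Bool × Bool) × List Tr) (b : Bool) : (Bool × Bool) × List Tr :=
  bif s.1.1 then ((false, false), .leaf b :: s.2) else bif s.1.2 then
    (bif b then ((false, false), .node (s.2.tail.headD (.leaf false)) (s.2.headD (.leaf false)) :: s.2.tail.tail)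
    else ((true, false), s.2)) else ((false, b), s.2)

theorem parse_post (t : Tr) : ∀ s, t.post.foldl parseStep ((false, false), s) = ((false, false), t :: s) := by
  induction t with
  | leaf b => intro s; simp [Tr.post, parseStep]
  | node l r ih1 ih2 => intro s; simp [Tr.post, ih1, ih2, parseStep]

theorem parse_pad (k : ℕ) (s) : (List.replicate k false).foldl parseStep ((false, false), s) = ((false, false), s) := by
  induction k with
  | zero => rfl
  | succ k ih => simpa [List.replicate_succ, parseStep] using ih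

theorem post_length (t : Tr) : t.post.length ≤ 2 * size t := by
  induction t with
  | leaf b => simp [Tr.post, size, enc, Enc.tr, Tr.code]
  | node l r ih1 ih2 => simp [Tr.post, size_node]; omega

def parse (y : List Bool) : Tr := (y.foldl parseStep ((false, false), [])).2.headD (.leaf false)

theorem PT.parse : PT parse :=
  (PT.foldl_add (F := fun _ => parseStep) (i := fun _ => ((false, false), [])) (l := fun y : List Bool => y)
    (D := fun _ => 10) (by unfold parseStep; fun_prop) (by fun_prop) (by fun_prop) (by fun_prop)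
    fun _ ⟨⟨u, v⟩, s⟩ b _ => by
      have : ∀ b, CX.size (Tr.leaf b) = 2 := fun _ => rfl
      cases u <;> cases v <;> cases b <;> rcases s with _ | ⟨x, _ | ⟨y, s⟩⟩ <;>
        simp [parseStep, size_node, this] <;> omega).snd.headD (PT.const _)

/-- membership in NP from a typed certificate of polynomial size -/
theorem InNP.of_cert [Dec γ] {A : α → Prop} (V : α → γ → Bool) (B : α → ℕ) (hV : PT fun p : α × γ => V p.1 p.2)
    (hB : PB B) (sound : ∀ a c, V a c = true → A a) (complete : ∀ a, A a → ∃ c, size c ≤ B a ∧ V a c = true) :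
    InNP A := by
  obtain ⟨q, hq⟩ := hB
  refine ⟨2 * q, fun p => V p.1 (Dec.dec (parse p.2)),
    hV.comp (PT.fst'.pair (Dec.pt.comp (PT.parse.comp PT.snd'))), fun a => ⟨fun h => ?_, fun ⟨_, _, h⟩ => sound _ _ h⟩⟩
  obtain ⟨c, hc, h⟩ := complete a h
  have h1 := post_length (Enc.tr c)
  have h2 : size (Enc.tr c) = size c := rfl
  have h3 := hq a
  refine ⟨(Enc.tr c).post ++ List.replicate (2 * q.eval (size a) - (Enc.tr c).post.length) false, by simp; omega, ?_⟩
  simp only [parse, List.foldl_append, parse_post, parse_pad, List.headD_cons, Dec.dec_tr, h]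

theorem InNP.of_cert' [Dec γ] {A : α → Prop} (V : α → γ → Prop) {i : ∀ a c, Decidable (V a c)} (B : α → ℕ)
    (hV : PT fun p : α × γ => @decide (V p.1 p.2) (i p.1 p.2)) (hB : PB B) (sound : ∀ a c, V a c → A a)
    (complete : ∀ a, A a → ∃ c, size c ≤ B a ∧ V a c) : InNP A :=
  InNP.of_cert (fun a c => @decide (V a c) (i a c)) B hV hB (by simpa using sound) (by simpa using complete)

theorem InNP.red {A : α → Prop} {B : β → Prop} (h : InNP B) (h' : Red A B) : InNP A := by
  obtain ⟨f, hf, e⟩ := h'
  obtain ⟨q, V, hV, h⟩ := h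
  refine InNP.of_cert (fun a (y : List Bool) => decide (y.length = q.eval (size (f a))) && V (f a, y))
    (fun a => 3 * q.eval (size (f a)) + 2) (by fun_prop) (by fun_prop) (fun a y hy => ?_) fun a ha => ?_
  · simp at hy; exact (e a).2 ((h _).2 ⟨y, hy⟩)
  · obtain ⟨y, h1, h2⟩ := (h _).1 ((e a).1 ha)
    exact ⟨y, by rw [size_bits, h1], by simp [h1, h2]⟩

theorem InNP.of_iff {A B : α → Prop} (h : InNP B) (e : ∀ a, A a ↔ B a) : InNP A := h.red ⟨_, PT.id, e⟩

theorem InP.inNP {A : α → Prop} (h : InP A) : InNP A :=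
  let ⟨f, hf, e⟩ := h
  InNP.of_cert (fun a (_ : Unit) => f a) (fun _ => 2) (hf.comp PT.fst') (PB.const _) (fun a _ h => (e a).2 h)
    fun a h => ⟨(), le_rfl, (e a).1 h⟩

end Pool.Agent.Lib.CX
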