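import Pool.Agent.Lib.lead.CXGraphRed

/-! List-based versions of basic NP-hard problems, convenient as sources of reductions. -/

namespace Pool.Agent.Lib.CX

variable {α β V : Type}

/-- NP-hardness by a reduction from vertex cover, given as a list of edges between numbers below `n`. -/
theorem NPHard.of_vc [Enc β] {B : β → Prop} (f : List Unit × List (ℕ × ℕ) × ℕ → β) (hf : PT f)
    (h : ∀ n es k, (∀ e ∈ es, e.1 < e.2 ∧ e.2 < n.length) → es.Nodup → k ≤ n.length →
      ((∃ S : Finset ℕ, (∀ x ∈ S, x < n.length) ∧ (∀ e ∈ es, e.1 ∈ S ∨ e.2 ∈ S) ∧ S.card ≤ k) ↔ B (f (n, es, k)))) :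
    NPHard B := by
  refine cover_hard.red ⟨fun a => f (a.1.1, (List.range a.1.n ×ˢ List.range a.1.n).filter
    (fun e => e.1 < e.2 ∧ a.1.adjB e.1 e.2), min a.2 a.1.n), hf.comp (by fun_prop), fun ⟨a, k⟩ => ?_⟩
  rw [← h _ _ _ (by simp; tauto) ((List.nodup_range.product List.nodup_range).filter _) (min_le_right _ _)]
  constructor
  · rintro ⟨s, h1, h2⟩
    refine ⟨s.image Fin.val, by simp, fun e he => ?_, Finset.card_image_le.trans (le_min h2 ?_)⟩
    · obtain ⟨u, v⟩ := e
      simp at he
      obtain ⟨⟨hu, hv⟩, -, h3⟩ := he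
      exact (h1 ⟨u, hu⟩ ⟨v, hv⟩ ((a.adjB_iff _ _).1 h3)).imp (Finset.mem_image_of_mem Fin.val)
        (Finset.mem_image_of_mem Fin.val)
    · simpa using s.card_le_univ
  · rintro ⟨S, -, h1, h2⟩
    refine ⟨Finset.univ.filter fun i => i.1 ∈ S, fun u v h => ?_, le_trans ?_ (h2.trans (min_le_left _ _))⟩
    · have h3 := (a.adjB_iff _ _).2 h
      have h4 := (a.adjB_iff _ _).2 h.symm
      rcases lt_or_gt_of_ne (Fin.val_ne_of_ne h.ne) with l | l
      · simpa using h1 (u, v) (by simp [l, h3])
      · simpa [or_comm] using h1 (v, u) (by simp [l, h4])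
    · exact Finset.card_le_card_of_injOn Fin.val (by simp [Set.MapsTo]) Fin.val_injective.injOn

/-- NP-hardness by a reduction from clique, given as a list of edges between numbers below `n`. -/
theorem NPHard.of_clique [Enc β] {B : β → Prop} (f : List Unit × List (ℕ × ℕ) × ℕ → β) (hf : PT f)
    (h : ∀ n es k, (∀ e ∈ es, e.1 < e.2 ∧ e.2 < n.length) → es.Nodup → k ≤ n.length + 1 →
      ((∃ S : Finset ℕ, (∀ x ∈ S, x < n.length) ∧ (∀ x ∈ S, ∀ y ∈ S, x < y → (x, y) ∈ es) ∧ S.card = k) ↔
        B (f (n, es, k)))) : NPHard B := by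
  refine clique_hard.red ⟨fun a => f (a.1.1, (List.range a.1.n ×ˢ List.range a.1.n).filter
    (fun e => e.1 < e.2 ∧ a.1.adjB e.1 e.2), min a.2 (a.1.n + 1)), hf.comp (by fun_prop), fun ⟨a, k⟩ => ?_⟩
  rw [← h _ _ _ (by simp; tauto) ((List.nodup_range.product List.nodup_range).filter _) (min_le_right _ _)]
  constructor
  · rintro ⟨s, h1, h2⟩
    obtain ⟨t, ht, hk⟩ := Finset.exists_subset_card_eq h2
    have : k ≤ a.n := (hk.symm.trans_le t.card_le_univ).trans (by simp)
    refine ⟨t.image Fin.val, by simp, ?_, by rw [Finset.card_image_of_injective _ Fin.val_injective, hk]; exact (min_eq_left (Nat.le_succ_of_le this)).symm⟩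
    simp only [Finset.forall_mem_image]
    intro u hu v hv l
    simpa [l] using (a.adjB_iff _ _).2 (h1 (ht hu) (ht hv) (Fin.ne_of_val_ne l.ne))
  · rintro ⟨S, h0, h1, h2⟩
    have h3 : S.card ≤ a.n := by simpa using Finset.card_le_card (t := Finset.range a.n) fun x hx => by simpa using h0 x hx
    refine ⟨Finset.univ.filter fun i => i.1 ∈ S, fun u hu v hv h => ?_, ?_⟩
    · simp at hu hv
      rcases lt_or_gt_of_ne (Fin.val_ne_of_ne h) with l | l
      · have := h1 _ hu _ hv l
        simp at this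
        exact (a.adjB_iff _ _).1 this.2
      · have := h1 _ hv _ hu l
        simp at this
        exact ((a.adjB_iff _ _).1 this.2).symm
    · refine le_trans (by simp only [Gr.n] at h2 h3 ⊢; omega) (Finset.card_le_card_of_surjOn (t := S) Fin.val fun x hx => ?_)
      exact ⟨⟨x, h0 x hx⟩, by simpa using hx, rfl⟩

/-- a natural number naming an encodable object -/
def nameOf [Enc V] (v : V) : ℕ := ofBits (enc v ++ [true])

theorem bits_ofBits (l : List Bool) : (ofBits (l ++ [true])).bits = l ++ [true] := by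
  induction l with
  | nil => rfl
  | cons b l ih =>
    rw [List.cons_append, ofBits_cons, Nat.bits_append_bit _ _ fun h => ?_, ih]
    rw [h] at ih; simp at ih

theorem nameOf_injective [Enc V] : Function.Injective (nameOf (V := V)) := fun a b h => by
  have := congrArg Nat.bits h
  rw [nameOf, nameOf, bits_ofBits, bits_ofBits] at this
  exact enc_inj (List.append_cancel_right this)

@[simp] theorem nameOf_inj [Enc V] {a b : V} : nameOf a = nameOf b ↔ a = b := nameOf_injective.eq_iff

@[fun_prop] theorem PT.nameOf [Enc α] [Enc V] {f : α → V} (hf : PT f) : PT (fun a => nameOf (f a)) := by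
  unfold CX.nameOf; fun_prop

end Pool.Agent.Lib.CX
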