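import Pool.Agent.Lib.lead.CXBase

/-! NP-hardness of subset sum and partition. -/

namespace Pool.Agent.Lib.CX

variable {α β V : Type}

theorem size_ofDigits (b : ℕ) (l : List ℕ) : size (Nat.ofDigits b l) ≤ size l + l.length * size b := by
  induction l with
  | nil => simp; rfl
  | cons a l ih =>
    have := size_add_le a (b * Nat.ofDigits b l)
    have := size_mul_le b (Nat.ofDigits b l)
    simp only [Nat.ofDigits_cons, size_cons, List.length_cons]; nlinarith

@[fun_prop] theorem PT.ofDigits [Enc α] {b : α → ℕ} {l : α → List ℕ} (hb : PT b) (hl : PT l) :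
    PT (fun a => Nat.ofDigits (b a) (l a)) :=
  (PT.listRec (f := fun (b : ℕ) (l : List ℕ) => Nat.ofDigits b l) (F := fun b x _ r => x + b * r)
    (B := fun a => CX.size a + CX.size a * CX.size a) (by simp; fun_prop) (by fun_prop)
    (fun _ _ _ => Nat.ofDigits_cons) (by fun_prop) fun b l => by
      have := size_ofDigits b l; have := length_le_size l; simp only [size_pair]; nlinarith).comp (hb.pair hl)

/-- some of the listed numbers add up to the target -/
def SubsetSum (a : List ℕ × ℕ) : Prop := ∃ S ⊆ Finset.range a.1.length, ∑ i ∈ S, a.1.getD i 0 = a.2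

theorem one3_iff_card (S : Finset ℕ) (C : T3 ℕ) (h : C.dist) :
    (∑ x ∈ S, if x ∈ C.vars then 1 else 0) =
      (decide (C.1 ∈ S)).toNat + (decide (C.2.1 ∈ S)).toNat + (decide (C.2.2 ∈ S)).toNat := by
  obtain ⟨a, b, c⟩ := C
  obtain ⟨h1, h2, h3⟩ := h
  have : ∀ x, (if x ∈ T3.vars (a, b, c) then 1 else 0) =
      (if x = a then 1 else 0) + (if x = b then 1 else 0) + (if x = c then 1 else 0) := fun x => by
    simp only [T3.vars, List.mem_cons] at *; split_ifs <;> simp_all
  simp only [this, Finset.sum_add_distrib, Finset.sum_ite_eq']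
  split_ifs <;> simp [*]

theorem ssum_hard : NPHard SubsetSum := by
  refine NPHard.of_one3 (fun φ => ((List.range (3 * φ.length)).map fun x =>
    Nat.ofDigits 4 (φ.map fun C => if x ∈ C.vars then 1 else 0), Nat.ofDigits 4 (φ.map fun _ => 1)))
    (by unfold T3.vars; fun_prop) fun φ h => ?_
  have e : ∀ (S : Finset ℕ) (ψ : List (T3 ℕ)), ∑ x ∈ S, Nat.ofDigits 4 (ψ.map fun C => if x ∈ C.vars then 1 else 0) =
      Nat.ofDigits 4 (ψ.map fun C => ∑ x ∈ S, if x ∈ C.vars then 1 else 0) := fun S ψ => by
    induction ψ with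
    | nil => simp
    | cons C ψ ih => simp only [List.map_cons, Nat.ofDigits_cons, Finset.sum_add_distrib, ← Finset.mul_sum, ih]
  have e2 : ∀ S ⊆ Finset.range (3 * φ.length), (∑ i ∈ S, ((List.range (3 * φ.length)).map fun x =>
      Nat.ofDigits 4 (φ.map fun C => if x ∈ C.vars then 1 else 0)).getD i 0 = Nat.ofDigits 4 (φ.map fun _ => 1)) ↔
      ∀ C ∈ φ, one3 (decide (C.1 ∈ S)) (decide (C.2.1 ∈ S)) (decide (C.2.2 ∈ S)) = true := fun S hS => by
    rw [Finset.sum_congr rfl fun i hi => (show _ = Nat.ofDigits 4 (φ.map fun C => if i ∈ C.vars then 1 else 0) by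
      simp [Finset.mem_range.1 (hS hi)]), e, List.map_congr_left fun C hC => one3_iff_card S C (h C hC).1]
    simp only [one3, beq_iff_eq]
    refine ⟨fun h => List.map_inj_left.1 (Nat.ofDigits_inj_of_len_eq (by omega) (by simp) ?_ (by simp) h),
      fun h => by rw [List.map_congr_left h]⟩
    refine List.forall_mem_map.2 fun C _ => ?_
    have := Bool.toNat_le (decide (C.1 ∈ S)); have := Bool.toNat_le (decide (C.2.1 ∈ S))
    have := Bool.toNat_le (decide (C.2.2 ∈ S)); omega
  simp only [SubsetSum, List.length_map, List.length_range]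
  constructor
  · rintro ⟨v, hv⟩
    refine ⟨(Finset.range _).filter (v · = true), Finset.filter_subset _ _, (e2 _ (Finset.filter_subset _ _)).2
      fun C hC => ?_⟩
    have := (h C hC).2
    simp only [T3.vars, List.forall_mem_cons] at this
    simpa [this] using hv C hC
  · rintro ⟨S, h1, h2⟩
    exact ⟨fun x => decide (x ∈ S), (e2 S h1).1 h2⟩

/-- some of the listed numbers add up to half of the total -/
def Partition (l : List ℕ) : Prop := ∃ S ⊆ Finset.range l.length, 2 * ∑ i ∈ S, l.getD i 0 = l.sum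

theorem sum_getD (l : List ℕ) : ∑ i ∈ Finset.range l.length, l.getD i 0 = l.sum := by
  induction l with
  | nil => simp
  | cons a l ih => rw [List.length_cons, Finset.sum_range_succ']; simp [← ih, add_comm]

theorem partition_hard : NPHard Partition := by
  refine ssum_hard.red ⟨fun a => a.1 ++ [2 * a.1.sum + 1 - min a.2 (a.1.sum + 1),
    a.1.sum + 1 + min a.2 (a.1.sum + 1)], by fun_prop, fun ⟨l, t⟩ => ?_⟩
  have k : ∀ (m : List ℕ), ∀ S ⊆ Finset.range l.length, ∑ i ∈ S, (l ++ m).getD i 0 = ∑ i ∈ S, l.getD i 0 :=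
    fun m S hS => Finset.sum_congr rfl fun i hi => List.getD_append _ _ _ _ (Finset.mem_range.1 (hS hi))
  have le : ∀ S ⊆ Finset.range l.length, ∑ i ∈ S, l.getD i 0 ≤ l.sum := fun S hS =>
    sum_getD l ▸ Finset.sum_le_sum_of_subset hS
  simp only [SubsetSum, Partition, List.length_append, List.sum_append]
  constructor
  · rintro ⟨S, h1, h2⟩
    have := le S h1
    refine ⟨insert l.length S, by simpa [Finset.insert_subset_iff] using h1.trans (by simp), ?_⟩
    rw [Finset.sum_insert fun h => by simpa using h1 h, k _ _ h1, h2]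
    simp; omega
  · rintro ⟨S, h1, h2⟩
    have h3 : S.filter (· < l.length) ⊆ Finset.range l.length := fun i hi => by simp_all
    rw [← Finset.sum_filter_add_sum_filter_not S (· < l.length), k _ _ h3] at h2
    have h4 := le _ h3
    have h8 : ∑ i ∈ S.filter (· < l.length), l.getD i 0 = t → ∃ S ⊆ Finset.range l.length, ∑ i ∈ S, l.getD i 0 = t :=
      fun h => ⟨_, h3, h⟩
    have h5 : S.filter (¬ · < l.length) ⊆ {l.length, l.length + 1} := fun i hi => by
      have := h1 (Finset.mem_filter.1 hi).1
      simp at hi this ⊢; omega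
    have h6 := Finset.sum_sdiff (f := fun i => l.getD i 0) h3
    rw [sum_getD] at h6
    have h7 : ∀ (a b : ℕ) (T : Finset ℕ), T ⊆ {a, b} → T = ∅ ∨ T = {a} ∨ T = {b} ∨ T = {a, b} := fun a b T h => by
      have := Set.subset_pair_iff_eq.1 (show (T : Set ℕ) ⊆ {a, b} by simpa using Finset.coe_subset.2 h)
      exact_mod_cast this
    have h9 : ∑ i ∈ Finset.range l.length \ S.filter (· < l.length), l.getD i 0 = t →
        ∃ S ⊆ Finset.range l.length, ∑ i ∈ S, l.getD i 0 = t := fun h => ⟨_, Finset.sdiff_subset, h⟩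
    generalize ∑ i ∈ S.filter (· < l.length), l.getD i 0 = x at *
    generalize ∑ i ∈ Finset.range l.length \ S.filter (· < l.length), l.getD i 0 = y at *
    rcases h7 _ _ _ h5 with h | h | h | h <;> rw [h] at h2 <;> simp at h2
    · omega
    · exact h8 (by omega)
    · exact h9 (by omega)
    · omega

end Pool.Agent.Lib.CX
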