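import Pool.Agent.Lib.lead.CXPT

/-! Polynomial-time operations on booleans, options and lists. -/

namespace Pool.Agent.Lib.CX

open Function

variable {α β γ δ σ : Type} [Enc α] [Enc β] [Enc γ] [Enc δ] [Enc σ]

@[simp] theorem size_nil : size ([] : List α) = 2 := rfl
@[simp] theorem size_cons (a : α) (l : List α) : size (a :: l) = size a + size l + 1 := size_pair a l
@[simp] theorem size_bool (b : Bool) : size b = 2 := rfl
@[simp] theorem size_unit (b : Unit) : size b = 2 := rfl
attribute [simp] size_pair
@[simp] theorem size_none : size (none : Option α) = 2 := rfl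
@[simp] theorem size_some (a : α) : size (some a) = size a + 3 := size_cons a []
theorem size_append (l m : List α) : size (l ++ m) + 2 = size l + size m := by
  induction l with
  | nil => simp; omega
  | cons a l ih => simp; omega
theorem size_append_le (l m : List α) : size (l ++ m) ≤ size l + size m := by have := size_append l m; omega
theorem size_mem {a : α} {l : List α} (h : a ∈ l) : size a ≤ size l := by
  induction l with
  | nil => simp at h
  | cons b l ih => rcases List.mem_cons.1 h with rfl | h <;> simp <;> [omega; (have := ih h; omega)]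
theorem length_le_size (l : List α) : l.length ≤ size l := by
  induction l with
  | nil => simp
  | cons b l ih => simp; omega
theorem size_list_le {l : List α} {B : ℕ} (h : ∀ x ∈ l, size x ≤ B) : size l ≤ l.length * (B + 1) + 2 := by
  induction l with
  | nil => simp
  | cons b l ih =>
    have := ih fun x hx => h x (List.mem_cons_of_mem _ hx)
    have := h b List.mem_cons_self
    simp; nlinarith
theorem size_sublist {l m : List α} (h : l.Sublist m) : size l ≤ size m := by
  induction h with
  | slnil => rfl
  | cons a _ ih => simp; omega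
  | cons_cons a _ ih => simp; omega
@[simp] theorem size_reverse (l : List α) : size l.reverse = size l := by
  induction l with
  | nil => rfl
  | cons a l ih => have := size_append l.reverse [a]; simp at this ⊢; omega

@[fun_prop] theorem PB.length {l : α → List β} (hl : PT l) : PB (fun a => (l a).length) :=
  (PB.size hl).mono fun _ => length_le_size _

@[fun_prop] theorem PT.not {f : α → Bool} (hf : PT f) : PT (fun a => !f a) :=
  (hf.cond (.const false) (.const true)).congr fun a => by cases f a <;> rfl
@[fun_prop] theorem PT.and {f g : α → Bool} (hf : PT f) (hg : PT g) : PT (fun a => f a && g a) :=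
  (hf.cond hg (.const false)).congr fun a => by cases f a <;> rfl
@[fun_prop] theorem PT.or {f g : α → Bool} (hf : PT f) (hg : PT g) : PT (fun a => f a || g a) :=
  (hf.cond (.const true) hg).congr fun a => by cases f a <;> rfl
@[fun_prop] theorem PT.xor {f g : α → Bool} (hf : PT f) (hg : PT g) : PT (fun a => xor (f a) (g a)) :=
  (hf.cond hg.not hg).congr fun a => by cases f a <;> simp

section
variable {p q : α → Prop} {i : ∀ a, Decidable (p a)} {j : ∀ a, Decidable (q a)}
@[fun_prop] theorem PT.decide_not {k : ∀ a, Decidable (¬p a)} (hp : PT fun a => @decide (p a) (i a)) :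
    PT (fun a => @decide (¬p a) (k a)) := hp.not.congr fun a => by simp
@[fun_prop] theorem PT.decide_and {k : ∀ a, Decidable (p a ∧ q a)} (hp : PT fun a => @decide (p a) (i a))
    (hq : PT fun a => @decide (q a) (j a)) : PT (fun a => @decide (p a ∧ q a) (k a)) :=
  (hp.and hq).congr fun a => by simp
@[fun_prop] theorem PT.decide_or {k : ∀ a, Decidable (p a ∨ q a)} (hp : PT fun a => @decide (p a) (i a))
    (hq : PT fun a => @decide (q a) (j a)) : PT (fun a => @decide (p a ∨ q a) (k a)) :=
  (hp.or hq).congr fun a => by simp
@[fun_prop] theorem PT.decide_imp {k : ∀ a, Decidable (p a → q a)} (hp : PT fun a => @decide (p a) (i a))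
    (hq : PT fun a => @decide (q a) (j a)) : PT (fun a => @decide (p a → q a) (k a)) :=
  (hp.not.or hq).congr fun a => by by_cases p a <;> by_cases q a <;> simp [*]
@[fun_prop] theorem PT.decide_iff {k : ∀ a, Decidable (p a ↔ q a)} (hp : PT fun a => @decide (p a) (i a))
    (hq : PT fun a => @decide (q a) (j a)) : PT (fun a => @decide (p a ↔ q a) (k a)) :=
  (hp.xor hq).not.congr fun a => by by_cases p a <;> by_cases q a <;> simp [*]
end

@[fun_prop] theorem PT.cons {f : α → β} {l : α → List β} (hf : PT f) (hl : PT l) : PT (fun a => f a :: l a) :=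
  (hf.pair hl).cast fun _ => rfl
@[fun_prop] theorem PT.tail {l : α → List β} (hl : PT l) : PT (fun a => (l a).tail) :=
  (PT.right.comp hl.tr).cast fun a => by cases l a <;> rfl
@[fun_prop] theorem PT.isEmpty {l : α → List β} (hl : PT l) : PT (fun a => (l a).isEmpty) :=
  (PT.isNode.comp hl.tr).not.congr fun a => by cases l a <;> rfl
@[fun_prop] theorem PT.headD {l : α → List β} {d : α → β} (hl : PT l) (hd : PT d) :
    PT (fun a => (l a).headD (d a)) :=
  (hl.isEmpty.cond hd.tr (PT.left.comp hl.tr)).cast fun a => by cases l a <;> rfl
@[fun_prop] theorem PT.some {f : α → β} (hf : PT f) : PT (fun a => some (f a)) :=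
  (hf.cons (.const [])).cast fun _ => rfl
@[fun_prop] theorem PT.toList {f : α → Option β} (hf : PT f) : PT (fun a => (f a).toList) := hf.cast fun _ => rfl
@[fun_prop] theorem PT.head? {l : α → List β} (hl : PT l) : PT (fun a => (l a).head?) :=
  (hl.isEmpty.cond hl.tr ((PT.left.comp hl.tr).node (.const (.leaf false)))).cast fun a => by cases l a <;> rfl
@[fun_prop] theorem PT.ogetD {l : α → Option β} {d : α → β} (hl : PT l) (hd : PT d) :
    PT (fun a => (l a).getD (d a)) := (hl.toList.headD hd).congr fun a => by cases l a <;> rfl
@[fun_prop] theorem PT.isSome {l : α → Option β} (hl : PT l) : PT (fun a => (l a).isSome) :=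
  hl.toList.isEmpty.not.congr fun a => by cases l a <;> rfl
@[fun_prop] theorem PT.isNone {l : α → Option β} (hl : PT l) : PT (fun a => (l a).isNone) :=
  hl.toList.isEmpty.congr fun a => by cases l a <;> rfl

/-- case distinction on a list -/
def lcase {γ β : Type} (l : List γ) (f : β) (g : γ → List γ → β) : β :=
  match l with
  | [] => f
  | x :: r => g x r

@[simp] theorem lcase_nil {γ β : Type} (f : β) (g : γ → List γ → β) : lcase [] f g = f := rfl
@[simp] theorem lcase_cons {γ β : Type} (x r) (f : β) (g : γ → List γ → β) : lcase (x :: r) f g = g x r := rfl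

@[fun_prop] theorem PT.lcase {l : α → List γ} {f : α → β} {g : α → γ → List γ → β} (hl : PT l) (hf : PT f)
    (hg : PT fun p : α × γ × List γ => g p.1 p.2.1 p.2.2) : PT (fun a => lcase (l a) (f a) (g a)) := by
  rcases isEmpty_or_nonempty γ with h | ⟨⟨d⟩⟩
  · exact hf.congr fun a => by cases l a with
      | nil => rfl
      | cons x _ => exact h.elim x
  · exact (hl.isEmpty.cond hf (hg.comp (PT.id.pair ((hl.headD (.const d)).pair hl.tail)))).congr
      fun a => by cases l a <;> rfl

theorem PT.foldl {F : α → σ → γ → σ} {i : α → σ} {l : α → List γ} {B : α → ℕ}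
    (hF : PT fun p : α × σ × γ => F p.1 p.2.1 p.2.2) (hi : PT i) (hl : PT l) (hB : PB B)
    (h : ∀ a k, size (((l a).take k).foldl (F a) (i a)) ≤ B a) : PT (fun a => (l a).foldl (F a) (i a)) := by
  let g : α × List γ × σ → α × List γ × σ := fun s =>
    (s.1, s.2.1.tail, CX.lcase s.2.1 s.2.2 fun x _ => F s.1 s.2.2 x)
  have hg : PT g := PT.pair PT.fst' (PT.pair (by fun_prop) (PT.lcase (by fun_prop) (by fun_prop)
    (hF.comp (g := fun p : (α × List γ × σ) × γ × List γ => (p.1.1, p.1.2.2, p.2.1)) (by fun_prop))))
  have e : ∀ a j, g^[j] (a, l a, i a) = (a, (l a).drop j, ((l a).take j).foldl (F a) (i a)) := fun a j => by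
    induction j with
    | zero => simp
    | succ j ih =>
      rw [iterate_succ_apply', ih]
      simp only [g, List.tail_drop, List.take_add_one, List.foldl_append]
      congr 2
      rcases h : (l a)[j]? with _ | x
      · rw [List.drop_eq_nil_of_le (by simpa using h)]; rfl
      · obtain ⟨h1, rfl⟩ := List.getElem?_eq_some_iff.1 h
        rw [List.drop_eq_getElem_cons h1]; rfl
  have := PT.loop (g := g) (c := fun s => !s.2.1.isEmpty) (i := fun a => (a, l a, i a))
    (f := fun a => (a, [], (l a).foldl (F a) (i a))) (B := fun a => size a + size (l a) + B a + 2) hg (by fun_prop)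
    (by fun_prop) (by have := PB.size' (α := α); fun_prop) fun a =>
      ⟨(l a).length, by have := length_le_size (l a); omega, fun j hj => by simp [e, hj], by simp [e], by simp [e],
        fun j _ => by
          have := h a j
          have := size_sublist (List.drop_sublist j (l a))
          simp [e]; omega⟩
  exact this.snd.snd

/-- a fold in which each round adds a polynomially bounded amount to the size of the state -/
theorem PT.foldl_add {F : α → σ → γ → σ} {i : α → σ} {l : α → List γ} {D : α → ℕ}
    (hF : PT fun p : α × σ × γ => F p.1 p.2.1 p.2.2) (hi : PT i) (hl : PT l) (hD : PB D)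
    (h : ∀ a s, ∀ x ∈ l a, size (F a s x) ≤ size s + D a) : PT (fun a => (l a).foldl (F a) (i a)) := by
  refine PT.foldl hF hi hl (B := fun a => size (i a) + (l a).length * D a) (by fun_prop) fun a k => ?_
  have : ∀ (m : List γ) s, (∀ x ∈ m, x ∈ l a) → size (m.foldl (F a) s) ≤ size s + m.length * D a := fun m => by
    induction m with
    | nil => simp
    | cons x m ih =>
      intro s hm
      have := ih (F a s x) fun y hy => hm y (List.mem_cons_of_mem _ hy)
      have := h a s x (hm x List.mem_cons_self)
      simp; nlinarith
  refine (this _ _ fun x hx => List.mem_of_mem_take hx).trans ?_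
  have : ((l a).take k).length * D a ≤ (l a).length * D a := Nat.mul_le_mul_right _ (by simp)
  omega

@[fun_prop] theorem PT.reverse {l : α → List β} (hl : PT l) : PT (fun a => (l a).reverse) :=
  (PT.foldl_add (F := fun _ s x => x :: s) (i := fun _ => []) (D := fun a => size (l a) + 1) (by fun_prop) (by fun_prop)
    hl (by fun_prop) fun a s x hx => by have := size_mem hx; simp; omega).congr fun a => by
      simp

/-- structural recursion on a list, with polynomially bounded values -/
theorem PT.listRec {f : α → List γ → σ} {F : α → γ → List γ → σ → σ} {B : α × List γ → ℕ}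
    (h0 : PT fun a => f a []) (hF : PT fun p : α × γ × List γ × σ => F p.1 p.2.1 p.2.2.1 p.2.2.2)
    (e : ∀ a x l, f a (x :: l) = F a x l (f a l)) (hB : PB B) (h : ∀ a l, size (f a l) ≤ B (a, l)) :
    PT (fun p : α × List γ => f p.1 p.2) := by
  obtain ⟨q, hq⟩ := hB
  have e' : ∀ a (m : List γ), m.foldl (fun (s : List γ × σ) x => (x :: s.1, F a x s.1 s.2)) ([], f a []) =
      (m.reverse, f a m.reverse) := fun a m => by
    induction m using List.reverseRecOn with
    | nil => rfl
    | append_singleton m x ih => simp [ih, e]
  have := PT.foldl (α := α × List γ) (F := fun a (s : List γ × σ) x => (x :: s.1, F a.1 x s.1 s.2))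
    (i := fun a => ([], f a.1 [])) (l := fun a => a.2.reverse) (B := fun a => size a + q.eval (size a) + 1)
    (PT.pair (by fun_prop) (hF.comp (g := fun p : (α × List γ) × (List γ × σ) × γ => (p.1.1, p.2.2, p.2.1.1, p.2.1.2))
      (by fun_prop))) (PT.pair (by fun_prop) (h0.comp PT.fst')) (by fun_prop)
    (by have := PB.size' (α := α × List γ); fun_prop) fun ⟨a, l⟩ k => by
      rw [e']
      have h1 : size (l.reverse.take k).reverse ≤ size l := by
        rw [size_reverse, ← size_reverse l]; exact size_sublist (List.take_sublist _ _)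
      have h2 := ((h a _).trans (hq (a, (l.reverse.take k).reverse))).trans
        (eval_mono q (b := size (a, l)) (by simp only [size_pair]; omega))
      simp only [size_pair] at h2 ⊢
      omega
  exact this.snd.congr fun a => by simp [e']

@[fun_prop] theorem PT.append {l m : α → List β} (hl : PT l) (hm : PT m) : PT (fun a => l a ++ m a) :=
  (PT.listRec (f := fun (m : List β) l => l ++ m) (F := fun _ x _ r => x :: r) (B := fun a => size a) (by simp; fun_prop)
    (by fun_prop) (by simp) PB.size' fun m l => by have := size_append l m; simp; omega).comp (hm.pair hl)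

@[fun_prop] theorem PT.map {F : α → β → γ} {l : α → List β} (hF : PT fun p : α × β => F p.1 p.2) (hl : PT l) :
    PT (fun a => (l a).map (F a)) := by
  obtain ⟨q, hq⟩ := PB.size hF
  refine (PT.listRec (f := fun a l => l.map (F a)) (F := fun a x _ r => F a x :: r)
    (B := fun a => size a * (q.eval (size a) + 1) + 2) (by simp; fun_prop)
    (PT.cons (hF.comp (g := fun p : α × β × List β × List γ => (p.1, p.2.1)) (by fun_prop)) (by fun_prop)) (by simp)
    (by have := PB.size' (α := α × List β); fun_prop) fun a l => ?_).comp (PT.id.pair hl)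
  refine (size_list_le (B := q.eval (size (a, l))) fun x hx => ?_).trans ?_
  · obtain ⟨y, hy, rfl⟩ := List.mem_map.1 hx
    exact (hq (a, y)).trans (eval_mono q (by have := size_mem hy; simp; omega))
  · have := length_le_size l
    exact Nat.add_le_add_right (Nat.mul_le_mul_right _ (by simp; omega)) _

theorem size_flatten (l : List (List α)) : size l.flatten ≤ size l := by
  induction l with
  | nil => simp
  | cons x l ih => have := size_append x l.flatten; simp; omega

@[fun_prop] theorem PT.flatten {l : α → List (List β)} (hl : PT l) : PT (fun a => (l a).flatten) :=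
  (PT.listRec (f := fun (_ : Unit) (l : List (List β)) => l.flatten) (F := fun _ x _ r => x ++ r) (B := fun a => size a)
    (by simp; fun_prop) (by fun_prop) (by simp) PB.size' fun _ l => by have := size_flatten l; simp; omega).comp
    ((PT.const ()).pair hl)

@[fun_prop] theorem PT.flatMap {F : α → β → List γ} {l : α → List β} (hF : PT fun p : α × β => F p.1 p.2) (hl : PT l) :
    PT (fun a => (l a).flatMap (F a)) := (hF.map hl).flatten.congr fun a => by rw [List.flatMap_def]

@[fun_prop] theorem PT.filterMap {F : α → β → Option γ} {l : α → List β} (hF : PT fun p : α × β => F p.1 p.2)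
    (hl : PT l) : PT (fun a => (l a).filterMap (F a)) :=
  (PT.flatMap (F := fun a x => (F a x).toList) hF.toList hl).congr fun a => by rw [List.filterMap_eq_flatMap_toList]

@[fun_prop] theorem PT.filter {F : α → β → Bool} {l : α → List β} (hF : PT fun p : α × β => F p.1 p.2) (hl : PT l) :
    PT (fun a => (l a).filter (F a)) :=
  (PT.flatMap (F := fun a x => bif F a x then [x] else []) (hF.cond (by fun_prop) (by fun_prop)) hl).congr fun a => by
    induction l a with
    | nil => rfl
    | cons x m ih => rw [List.filter_cons, List.flatMap_cons, ih]; cases F a x <;> rfl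

@[fun_prop] theorem PT.any {F : α → β → Bool} {l : α → List β} (hF : PT fun p : α × β => F p.1 p.2) (hl : PT l) :
    PT (fun a => (l a).any (F a)) :=
  (hF.filter hl).isEmpty.not.congr fun a => by rw [Bool.eq_iff_iff]; simp

@[fun_prop] theorem PT.all {F : α → β → Bool} {l : α → List β} (hF : PT fun p : α × β => F p.1 p.2) (hl : PT l) :
    PT (fun a => (l a).all (F a)) :=
  (PT.any (F := fun a x => !F a x) hF.not hl).not.congr fun a => by rw [Bool.eq_iff_iff]; simp

@[fun_prop] theorem PT.find? {F : α → β → Bool} {l : α → List β} (hF : PT fun p : α × β => F p.1 p.2) (hl : PT l) :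
    PT (fun a => (l a).find? (F a)) := (hF.filter hl).head?.congr fun a => by simp

@[fun_prop] theorem PT.omap {F : α → β → γ} {l : α → Option β} (hF : PT fun p : α × β => F p.1 p.2) (hl : PT l) :
    PT (fun a => (l a).map (F a)) := (hF.map hl.toList).head?.congr fun a => by cases l a <;> rfl

@[fun_prop] theorem PT.obind {F : α → β → Option γ} {l : α → Option β} (hF : PT fun p : α × β => F p.1 p.2)
    (hl : PT l) : PT (fun a => (l a).bind (F a)) :=
  (hF.filterMap hl.toList).head?.congr fun a => by
    cases l a with
    | none => rfl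
    | some x => cases h : F a x <;> simp [h]

section
variable {P : α → β → Prop} {l : α → List β}
@[fun_prop] theorem PT.decide_forall {i : ∀ a x, Decidable (P a x)} {k : ∀ a, Decidable (∀ x ∈ l a, P a x)}
    (hP : PT fun p : α × β => @decide (P p.1 p.2) (i p.1 p.2)) (hl : PT l) :
    PT (fun a => @decide (∀ x ∈ l a, P a x) (k a)) :=
  (PT.all (F := fun a x => @decide (P a x) (i a x)) hP hl).congr fun a => by rw [Bool.eq_iff_iff]; simp
@[fun_prop] theorem PT.decide_exists {i : ∀ a x, Decidable (P a x)} {k : ∀ a, Decidable (∃ x ∈ l a, P a x)}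
    (hP : PT fun p : α × β => @decide (P p.1 p.2) (i p.1 p.2)) (hl : PT l) :
    PT (fun a => @decide (∃ x ∈ l a, P a x) (k a)) :=
  (PT.any (F := fun a x => @decide (P a x) (i a x)) hP hl).congr fun a => by rw [Bool.eq_iff_iff]; simp
end

theorem Tr.code_append : ∀ (s t : Tr) (x y : List Bool), s.code ++ x = t.code ++ y → s = t ∧ x = y
  | .leaf _, .leaf _, _, _, h => by simpa [Tr.code] using h
  | .leaf _, .node _ _, _, _, h => by simp [Tr.code] at h
  | .node _ _, .leaf _, _, _, h => by simp [Tr.code] at h
  | .node a b, .node c d, x, y, h => by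
    simp only [Tr.code, List.cons_append, List.append_assoc, List.cons.injEq, true_and] at h
    obtain ⟨h1, h2⟩ := Tr.code_append a c _ _ h
    obtain ⟨h3, h4⟩ := Tr.code_append b d _ _ h2
    exact ⟨by rw [h1, h3], h4⟩

theorem enc_inj : Injective (enc : α → List Bool) := fun a b h =>
  Enc.inj (Tr.code_append _ _ [] [] (by simpa [enc] using h)).1

theorem PT.eq_bits : PT (fun p : List Bool × List Bool => decide (p.1 = p.2)) := by
  have e : ∀ (l m : List Bool) (ok : Bool),
      (l.foldl (fun (s : List Bool × Bool) b => (s.1.tail, s.2 && !s.1.isEmpty && !Bool.xor (s.1.headD false) b)) (m, ok)) =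
        (m.drop l.length, ok && decide (l <+: m)) := fun l => by
    induction l with
    | nil => simp
    | cons b l ih =>
      intro m ok
      rw [List.foldl_cons, ih]
      cases m with
      | nil => simp
      | cons c m => cases b <;> cases c <;> simp [List.cons_prefix_cons] <;> congr
  have := PT.foldl_add (α := List Bool × List Bool)
    (F := fun _ (s : List Bool × Bool) b => (s.1.tail, s.2 && !s.1.isEmpty && !Bool.xor (s.1.headD false) b))
    (i := fun a => (a.2, true)) (l := fun a => a.1) (D := fun _ => 0) (by fun_prop) (by fun_prop) (by fun_prop)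
    (by fun_prop) fun a ⟨s, t⟩ x _ => by simpa using size_sublist (List.tail_sublist s)
  refine (this.fst.isEmpty.and this.snd).congr fun ⟨l, m⟩ => ?_
  rw [e, Bool.eq_iff_iff]
  simp only [decide_eq_true_eq, Bool.true_and, Bool.and_eq_true, List.isEmpty_iff, List.drop_eq_nil_iff]
  exact ⟨fun h => by simp [h], fun h => h.2.eq_of_length_le h.1⟩

@[fun_prop] theorem PT.decide_eq {f g : α → β} {k : ∀ a, Decidable (f a = g a)} (hf : PT f) (hg : PT g) :
    PT (fun a => @decide (f a = g a) (k a)) :=
  (PT.eq_bits.comp (hf.enc.pair hg.enc)).congr fun a => by simp [enc_inj.eq_iff]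

@[fun_prop] theorem PT.decide_ne {f g : α → β} {k : ∀ a, Decidable (f a ≠ g a)} (hf : PT f) (hg : PT g) :
    PT (fun a => @decide (f a ≠ g a) (k a)) := by
  classical exact (PT.decide_eq (k := fun _ => inferInstance) hf hg).not.congr fun a => by simp

@[fun_prop] theorem PT.beq [BEq β] [LawfulBEq β] {f g : α → β} (hf : PT f) (hg : PT g) : PT (fun a => f a == g a) := by
  classical exact (PT.decide_eq (k := fun _ => inferInstance) hf hg).congr fun a => by rw [Bool.eq_iff_iff]; simp

@[fun_prop] theorem PT.bne [BEq β] [LawfulBEq β] {f g : α → β} (hf : PT f) (hg : PT g) : PT (fun a => f a != g a) :=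
  (hf.beq hg).not

@[fun_prop] theorem PT.decide_mem {f : α → β} {l : α → List β} {k : ∀ a, Decidable (f a ∈ l a)} (hf : PT f)
    (hl : PT l) : PT (fun a => @decide (f a ∈ l a) (k a)) := by
  classical
  exact (PT.any (F := fun a x => decide (f a = x)) (PT.decide_eq (hf.comp PT.fst') PT.snd') hl).congr
    fun a => by rw [Bool.eq_iff_iff]; simp

@[fun_prop] theorem PT.contains [BEq β] [LawfulBEq β] {f : α → β} {l : α → List β} (hf : PT f) (hl : PT l) :
    PT (fun a => (l a).contains (f a)) := by
  classical exact (PT.decide_mem (k := fun _ => inferInstance) hf hl).congr fun a => by rw [Bool.eq_iff_iff]; simp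

@[fun_prop] theorem PT.decide_nodup {l : α → List β} {k : ∀ a, Decidable (l a).Nodup} (hl : PT l) :
    PT (fun a => @decide (l a).Nodup (k a)) := by
  classical
  exact ((PT.listRec (f := fun (_ : Unit) (l : List β) => decide l.Nodup)
    (F := fun _ x l r => !decide (x ∈ l) && r) (B := fun _ => 2) (by simp; fun_prop) (by fun_prop) (by simp)
    (by fun_prop) (by simp)).comp ((PT.const ()).pair hl)).congr fun a => by simp

@[fun_prop] theorem PT.dedup [DecidableEq β] {l : α → List β} (hl : PT l) : PT (fun a => (l a).dedup) :=
  (PT.listRec (f := fun (_ : Unit) (l : List β) => l.dedup) (F := fun _ x l r => if x ∈ l then r else x :: r)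
    (B := fun a => size a) (by simp; fun_prop) (by fun_prop) (fun _ x l => by
      split
      · exact List.dedup_cons_of_mem ‹_›
      · exact List.dedup_cons_of_notMem ‹_›) PB.size'
    fun _ l => by have := size_sublist (List.dedup_sublist l); simp; omega).comp ((PT.const ()).pair hl)

@[fun_prop] theorem PT.zip {l : α → List β} {m : α → List γ} (hl : PT l) (hm : PT m) :
    PT (fun a => (l a).zip (m a)) := by
  have e : ∀ (l : List β) (m : List γ) (acc : List (β × γ)),
      (l.foldl (fun (s : List γ × List (β × γ)) x => (s.1.tail, CX.lcase s.1 s.2 fun y _ => (x, y) :: s.2))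
        (m, acc)).2 = (l.zip m).reverse ++ acc := fun l => by
    induction l with
    | nil => simp
    | cons b l ih => intro m acc; rw [List.foldl_cons, ih]; cases m <;> simp
  have := PT.foldl_add
    (F := fun _ (s : List γ × List (β × γ)) x => (s.1.tail, CX.lcase s.1 s.2 fun y _ => (x, y) :: s.2))
    (i := fun a => (m a, [])) (l := l) (D := fun a => size (l a) + 1) (by fun_prop) (by fun_prop) hl
    (by fun_prop) fun a ⟨s, t⟩ x hx => by have := size_mem hx; cases s <;> simp; omega
  exact this.snd.reverse.congr fun a => by simp [e]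

@[fun_prop] theorem PT.zipWith {F : α → β → γ → δ} {l : α → List β} {m : α → List γ}
    (hF : PT fun p : α × β × γ => F p.1 p.2.1 p.2.2) (hl : PT l) (hm : PT m) :
    PT (fun a => List.zipWith (F a) (l a) (m a)) :=
  (PT.map (F := fun a (x : β × γ) => F a x.1 x.2) hF (hl.zip hm)).congr fun a => by
    rw [List.zip, List.map_zipWith]

@[fun_prop] theorem PT.product {l : α → List β} {m : α → List γ} (hl : PT l) (hm : PT m) :
    PT (fun a => l a ×ˢ m a) :=
  PT.flatMap (F := fun a x => (m a).map (Prod.mk x)) (by fun_prop) hl

end Pool.Agent.Lib.CX
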