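import Pool.Agent.Lib.lead.CXNP

/-! Small-step semantics with a finite control, described by local rules. -/

namespace Pool.Agent.Lib.CX

open Function

def step : List Prog × St → List Prog × St
  | ([], s) => ([], s)
  | (.push i b :: k, s) => (k, update s i (b :: s i))
  | (.pop i :: k, s) => (k, update s i (s i).tail)
  | (.seq p q :: k, s) => (p :: q :: k, s)
  | (.ite i p q :: k, s) => (if (s i).head? = some true then p :: k else q :: k, s)
  | (.loop i p :: k, s) => (if s i = [] then k else p :: .loop i p :: k, s)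

theorem Exec.run {p s t n m} (h : Exec p s t n m) : ∀ k, step^[n] (p :: k, s) = (k, t) := by
  induction h with
  | push => intro k; rfl
  | pop => intro k; rfl
  | @seq p q s t u n k m _ _ a b =>
    intro κ
    rw [iterate_succ_apply, add_comm, iterate_add_apply]
    simp only [step]; rw [a, b]
  | iteT h _ a => intro κ; rw [iterate_succ_apply]; simp only [step, h, if_true]; exact a κ
  | iteF h _ a => intro κ; rw [iterate_succ_apply]; simp only [step, h, if_false]; exact a κ
  | loop0 h => intro κ; simp [step, h]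
  | loopS h _ _ a b =>
    intro κ
    rw [iterate_succ_apply, add_comm, iterate_add_apply]
    simp only [step, h, if_false]; rw [a, b]

theorem step_halt (n : ℕ) (s : St) : step^[n] ([], s) = ([], s) := iterate_fixed rfl n

theorem Exec.run_le {p s t n m} (h : Exec p s t n m) {T : ℕ} (hT : n ≤ T) : step^[T] ([p], s) = ([], t) := by
  obtain ⟨d, rfl⟩ := Nat.exists_eq_add_of_le' hT
  rw [iterate_add_apply, h.run, step_halt]

theorem Exec.run_space {p s t n m} (h : Exec p s t n m) : (∀ i, (s i).length ≤ m) →
    ∀ k, ∀ j ≤ n, ∀ i, ((step^[j] (p :: k, s)).2 i).length ≤ m := by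
  have two : ∀ {c c' : List Prog × St} {n k m : ℕ}, (∀ i, (c.2 i).length ≤ m) → step^[n] (step c) = c' →
      (∀ j ≤ n, ∀ i, ((step^[j] (step c)).2 i).length ≤ m) → (∀ j ≤ k, ∀ i, ((step^[j] c').2 i).length ≤ m) →
      ∀ j ≤ n + k + 1, ∀ i, ((step^[j] c).2 i).length ≤ m := by
    intro c c' n k m h0 e h1 h2 j hj
    rcases j with _ | j
    · exact h0
    rw [iterate_succ_apply]
    rcases le_total j n with h | h
    · exact h1 j h
    · obtain ⟨d, rfl⟩ := Nat.exists_eq_add_of_le' h
      rw [iterate_add_apply, e]; exact h2 d (by omega)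
  induction h with
  | @push i b s m h =>
    intro hs k j hj l
    rcases j with _ | _ | j
    · exact hs l
    · by_cases e : l = i
      · subst e; simpa [step] using h
      · simpa [step, update_of_ne e] using hs l
    · omega
  | @pop i s m =>
    intro hs k j hj l
    rcases j with _ | _ | j
    · exact hs l
    · by_cases e : l = i
      · subst e; have := hs l; simp [step]; omega
      · simpa [step, update_of_ne e] using hs l
    · omega
  | @seq p q s t u n k m h1 h2 a b =>
    intro hs κ
    have := a hs (q :: κ)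
    exact two hs (h1.run _) this (b (by simpa [h1.run] using this n le_rfl) κ)
  | @iteT i p q s t n m h h1 a =>
    intro hs κ
    have e : step (.ite i p q :: κ, s) = (p :: κ, s) := by simp [step, h]
    exact two (k := 0) hs rfl (e ▸ a hs κ) (by simpa [e] using a hs κ n le_rfl)
  | @iteF i p q s t n m h h1 a =>
    intro hs κ
    have e : step (.ite i p q :: κ, s) = (q :: κ, s) := by simp [step, h]
    exact two (k := 0) hs rfl (e ▸ a hs κ) (by simpa [e] using a hs κ n le_rfl)
  | @loop0 i p s m h =>
    intro hs κ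
    have e : step (.loop i p :: κ, s) = (κ, s) := by simp [step, h]
    exact two (n := 0) (k := 0) hs rfl (by simpa [e] using hs) (by simpa [e] using hs)
  | @loopS i p s t u n k m h h1 h2 a b =>
    intro hs κ
    have e : step (.loop i p :: κ, s) = (p :: .loop i p :: κ, s) := by simp [step, h]
    have := a hs (.loop i p :: κ)
    exact two hs (e ▸ h1.run _) (e ▸ this) (b (by simpa [h1.run] using this n le_rfl) κ)

/-- a cell: kind, stack, depth -/
abbrev Cell := ℕ × ℕ × ℕ

/-- kind 0: the cell is occupied; kind 1: its bit; kind 2: true; other kinds: false -/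
def cval (s : St) (x : Cell) : Bool :=
  if x.1 = 0 then decide (x.2.2 < (s x.2.1).length) else if x.1 = 1 then (s x.2.1).getD x.2.2 false else decide (x.1 = 2)

def src : List Prog → Cell → Cell
  | .push i b :: _, x => if x.2.1 = i ∧ x.1 ≤ 1 then
      (if x.2.2 = 0 then (if x.1 = 0 ∨ b = true then 2 else 3, i, 0) else (x.1, i, x.2.2 - 1)) else x
  | .pop i :: _, x => if x.2.1 = i then (x.1, i, x.2.2 + 1) else x
  | _, x => x

def cnd : List Prog → Cell
  | .ite i _ _ :: _ => (1, i, 0)
  | .loop i _ :: _ => (0, i, 0)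
  | _ => (2, 0, 0)

def nxt : List Prog → Bool → List Prog
  | [], _ => []
  | .push _ _ :: k, _ => k
  | .pop _ :: k, _ => k
  | .seq p q :: k, _ => p :: q :: k
  | .ite _ p q :: k, b => if b then p :: k else q :: k
  | .loop i p :: k, b => if b then p :: .loop i p :: k else k

theorem step_fst (κ s) : (step (κ, s)).1 = nxt κ (cval s (cnd κ)) := by
  rcases κ with _ | ⟨_ | _ | _ | ⟨i, p, q⟩ | ⟨i, p⟩, k⟩ <;> try rfl
  · rcases h : s i with _ | ⟨_ | _, _⟩ <;> simp [step, nxt, cnd, cval, h]
  · rcases h : s i with _ | ⟨_ | _, _⟩ <;> simp [step, nxt, cnd, cval, h]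

theorem step_snd (κ s x) : cval (step (κ, s)).2 x = cval s (src κ x) := by
  obtain ⟨d, i', j⟩ := x
  rcases κ with _ | ⟨⟨i, b⟩ | i | _ | ⟨i, p, q⟩ | ⟨i, p⟩, k⟩ <;> try rfl
  · by_cases e : i' = i
    · subst e
      rcases d with _ | _ | d <;> rcases j with _ | j <;> cases b <;> simp [step, src, cval]
    · simp [step, src, cval, e, update_of_ne e]
  · by_cases e : i' = i
    · subst e
      rcases d with _ | _ | d <;> simp [step, src, cval]
      omega
    · simp [step, src, cval, e, update_of_ne e]

theorem src_bound (κ x) : (x.1 < 4 → (src κ x).1 < 4) ∧ (src κ x).2.1 = x.2.1 ∧ (src κ x).2.2 ≤ x.2.2 + 1 := by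
  rcases κ with _ | ⟨⟨i, b⟩ | i | _ | ⟨i, p, q⟩ | ⟨i, p⟩, k⟩ <;> simp only [src] <;> (try split_ifs) <;>
    simp_all <;> omega

theorem cnd_bound (κ) : (cnd κ).1 < 4 ∧ (cnd κ).2.2 = 0 := by
  rcases κ with _ | ⟨⟨i, b⟩ | i | _ | ⟨i, p, q⟩ | ⟨i, p⟩, k⟩ <;> simp [cnd]

theorem PT.src (κ) : PT (src κ) := by
  rcases κ with _ | ⟨⟨i, b⟩ | i | _ | ⟨i, p, q⟩ | ⟨i, p⟩, k⟩ <;> unfold CX.src <;> fun_prop

def sub : Prog → List Prog → List (List Prog)
  | .push i b, k => [.push i b :: k]
  | .pop i, k => [.pop i :: k]
  | .seq p q, k => (.seq p q :: k) :: (sub p (q :: k) ++ sub q k)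
  | .ite i p q, k => (.ite i p q :: k) :: (sub p k ++ sub q k)
  | .loop i p, k => (.loop i p :: k) :: sub p (.loop i p :: k)

theorem mem_sub (p k) : p :: k ∈ sub p k := by cases p <;> simp [sub]

theorem sub_closed (p : Prog) : ∀ k, ∀ κ ∈ sub p k, ∀ b, nxt κ b ∈ sub p k ∨ nxt κ b = k := by
  induction p with
  | push i b => simp [sub, nxt]
  | pop i => simp [sub, nxt]
  | seq p q a b =>
    intro k κ h c
    simp only [sub, List.mem_cons, List.mem_append] at h ⊢
    rcases h with rfl | h | h
    · simp [nxt, mem_sub]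
    · rcases a _ _ h c with h | h
      · tauto
      · simp [h, mem_sub]
    · have := b _ _ h c; tauto
  | ite i p q a b =>
    intro k κ h c
    simp only [sub, List.mem_cons, List.mem_append] at h ⊢
    rcases h with rfl | h | h
    · cases c <;> simp [nxt, mem_sub]
    · have := a _ _ h c; tauto
    · have := b _ _ h c; tauto
  | loop i p a =>
    intro k κ h c
    simp only [sub, List.mem_cons] at h ⊢
    rcases h with rfl | h
    · cases c <;> simp [nxt, mem_sub]
    · have := a _ _ h c; tauto

/-- the finite control of a program -/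
def labels (p : Prog) : List (List Prog) := [] :: sub p []

theorem labels_closed {p κ} (h : κ ∈ labels p) (b) : nxt κ b ∈ labels p := by
  rcases List.mem_cons.1 h with rfl | h
  · simp [nxt, labels]
  · have := sub_closed p [] κ h b; simp only [labels, List.mem_cons]; tauto

theorem run_label (p s n) : (step^[n] ([p], s)).1 ∈ labels p := by
  induction n with
  | zero => exact List.mem_cons_of_mem _ (mem_sub p [])
  | succ n ih => rw [iterate_succ_apply', ← Prod.mk.eta (p := step^[n] _), step_fst]; exact labels_closed ih _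

end Pool.Agent.Lib.CX
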